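import Pool.Agent.helper50.BS.SpecT

/-! # Project bs, module TA5: subadditivity over unions of families -/

open Finset

open scoped Classical

noncomputable section

namespace Pool.Agent.BS

theorem TA5_ind (w p q p' q' : Prop) :
    (if w ∧ ¬ ((p ∨ p') ↔ (q ∨ q')) then 1 else 0 : ℕ) ≤
      (if w ∧ ¬ (p ↔ q) then 1 else 0) + (if w ∧ ¬ (p' ↔ q') then 1 else 0) := by
  by_cases hw : w <;> by_cases hp : p <;> by_cases hq : q <;> by_cases hp' : p' <;>
    by_cases hq' : q' <;> simp [hw, hp, hq, hp', hq']

theorem TA5_union (g : IG) (W : Finset ℕ) (A B : Finset (ℕ ⊕ ℕ)) :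
    g.cW W (A ∪ B) ≤ g.cW W A + g.cW W B := by
  unfold IG.cW
  rw [← Finset.sum_add_distrib]
  refine Finset.sum_le_sum fun e _ => ?_
  simp only [Finset.mem_union]
  have h1 := TA5_ind (g.s e ∈ W) (Sum.inl (g.s e) ∈ A) (Sum.inr e ∈ A) (Sum.inl (g.s e) ∈ B)
    (Sum.inr e ∈ B)
  have h2 := TA5_ind (g.t e ∈ W) (Sum.inl (g.t e) ∈ A) (Sum.inr e ∈ A) (Sum.inl (g.t e) ∈ B)
    (Sum.inr e ∈ B)
  linarith

theorem TA5_empty (g : IG) (W : Finset ℕ) : g.cW W ∅ = 0 := by
  unfold IG.cW
  refine Finset.sum_eq_zero fun e _ => ?_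
  simp

theorem TA5 : TA5_stmt := by
  intro g W β G
  constructor
  · induction G using Finset.induction_on with
    | empty => simp [TA5_empty]
    | insert K G hK ih =>
      rw [Finset.biUnion_insert, Finset.sum_insert hK]
      refine (TA5_union g W _ _).trans ?_
      exact Nat.add_le_add_left ih _
  · induction G using Finset.induction_on with
    | empty =>
      have h0 : bB β ∅ = 0 := by
        unfold bB
        rw [Finset.card_eq_zero]
        ext x
        simp
      simp [h0]
    | insert K G hK ih =>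
      rw [Finset.biUnion_insert, Finset.sum_insert hK]
      have h1 : bB β (id K ∪ G.biUnion id) ≤ bB β K + bB β (G.biUnion id) := by
        unfold bB
        have h2 : (id K ∪ G.biUnion id).toRight ∩ β ⊆ K.toRight ∩ β ∪ (G.biUnion id).toRight ∩ β := by
          intro x hx
          simp only [Finset.mem_inter, Finset.mem_union, Finset.mem_toRight] at hx ⊢
          obtain ⟨h3 | h3, h4⟩ := hx
          · exact Or.inl ⟨h3, h4⟩
          · exact Or.inr ⟨h3, h4⟩
        exact (Finset.card_le_card h2).trans (Finset.card_union_le _ _)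
      exact h1.trans (Nat.add_le_add_left ih _)

end Pool.Agent.BS
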