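import Pool.Agent.helper50.BS.SpecT

/-! # Project bs, module TD2: `Z` is a unit -/

open Finset

open scoped Classical

noncomputable section

namespace Pool.Agent.BS

theorem TD2 (hTA3 : TA3_stmt) (hTA4 : TA4_stmt) : TD2_stmt := by
  intro g R _ W β U x y u hx hy
  have hmem : (∅ : Finset (ℕ ⊕ ℕ)) ∈
      (g.X0 W).powerset.filter (fun A => A.toRight ∩ β ⊆ U) := by
    rw [Finset.mem_filter]
    refine ⟨Finset.empty_mem_powerset _, ?_⟩
    intro e he
    rw [Finset.mem_inter, Finset.mem_toRight] at he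
    exact absurd he.1 (Finset.notMem_empty _)
  rw [← Finset.add_sum_erase _ _ hmem, (hTA3 g R W β x y u).1]
  apply IsNilpotent.isUnit_one_add
  have h1 : ∑ A ∈ ((g.X0 W).powerset.filter (fun A => A.toRight ∩ β ⊆ U)).erase ∅,
      om g W β x y u A ∈ nilradical R := by
    refine Ideal.sum_mem _ fun A hA => ?_
    rw [Finset.mem_erase, Finset.mem_filter, Finset.mem_powerset] at hA
    exact mem_nilradical.mpr (hTA4 g R W β x y u hx hy A hA.2.1
      (Finset.nonempty_iff_ne_empty.mpr hA.1))
  exact mem_nilradical.mp h1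

end Pool.Agent.BS
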