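import Pool.Agent.helper50.BS.SpecU

/-!
# UB1: the list of subsets
-/

set_option autoImplicit false
set_option linter.unusedVariables false
set_option linter.unusedSectionVars false

namespace Pool.Agent.helper50.BT

open Pool.Agent.helper81.PL

open scoped Classical

/-- the step of the fold -/
def UB1_step (L : List (Finset ℕ)) (e : ℕ) : List (Finset ℕ) :=
  L ++ L.map (fun T => insert e T)

lemma UB1_fold (l : List ℕ) (hl : l.Nodup) :
    (l.foldl UB1_step [∅]).length = 2 ^ l.length ∧ (l.foldl UB1_step [∅]).Nodup ∧
      ∀ Q, Q ∈ l.foldl UB1_step [∅] ↔ ∀ e ∈ Q, e ∈ l := by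
  induction l using List.reverseRecOn with
  | nil =>
    refine ⟨by simp, by simp, fun Q => ?_⟩
    simp only [List.foldl_nil, List.mem_singleton, List.not_mem_nil]
    constructor
    · rintro rfl e he
      simp at he
    · intro h
      exact Finset.eq_empty_of_forall_notMem h
  | append_singleton l a ih =>
    rw [List.nodup_append] at hl
    obtain ⟨hl1, _, hl2⟩ := hl
    have ha : a ∉ l := fun h => hl2 a h a (by simp) rfl
    obtain ⟨h1, h2, h3⟩ := ih hl1
    rw [List.foldl_append, List.foldl_cons, List.foldl_nil]
    generalize hL : l.foldl UB1_step [∅] = L at *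
    have hna : ∀ T ∈ L, a ∉ T := fun T hT haT => ha ((h3 T).mp hT a haT)
    refine ⟨?_, ?_, ?_⟩
    · unfold UB1_step
      rw [List.length_append, List.length_map, h1, List.length_append, List.length_singleton, pow_succ]
      ring
    · unfold UB1_step
      rw [List.nodup_append]
      refine ⟨h2, ?_, ?_⟩
      · refine List.Nodup.map_on ?_ h2
        intro x hx y hy hxy
        have := congrArg (fun T : Finset ℕ => T.erase a) hxy
        simpa [Finset.erase_insert (hna x hx), Finset.erase_insert (hna y hy)] using this
      · intro x hx y hy hxy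
        rw [List.mem_map] at hy
        obtain ⟨T, _, rfl⟩ := hy
        exact hna x hx (by rw [hxy]; exact Finset.mem_insert_self _ _)
    · intro Q
      unfold UB1_step
      rw [List.mem_append, List.mem_map]
      constructor
      · rintro (hQ | ⟨T, hT, rfl⟩) e he
        · exact List.mem_append_left _ ((h3 Q).mp hQ e he)
        · rcases Finset.mem_insert.mp he with rfl | he
          · simp
          · exact List.mem_append_left _ ((h3 T).mp hT e he)
      · intro h
        by_cases haQ : a ∈ Q
        · refine Or.inr ⟨Q.erase a, (h3 _).mpr (fun e he => ?_), Finset.insert_erase haQ⟩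
          rw [Finset.mem_erase] at he
          have := h e he.2
          rw [List.mem_append, List.mem_singleton] at this
          exact this.resolve_right he.1
        · refine Or.inl ((h3 _).mpr (fun e he => ?_))
          have := h e he
          rw [List.mem_append, List.mem_singleton] at this
          exact this.resolve_right (fun h => haQ (h ▸ he))

theorem UB1 : UB1_stmt := by
  intro N S hN hS
  have hnd : (S.sort (· ≤ ·)).Nodup := Finset.sort_nodup _ _
  have hmem : ∀ e, e ∈ S.sort (· ≤ ·) ↔ e ∈ S := fun e => Finset.mem_sort _
  have hlen : (S.sort (· ≤ ·)).length = S.card := Finset.length_sort _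
  have key : psub N S = (S.sort (· ≤ ·)).foldl UB1_step [∅] := by
    unfold psub
    refine cfold_eq (s := UB1_step) (x := [∅]) ?_
    intro l' hl'
    obtain ⟨h1, h2, h3⟩ := UB1_fold l' (hl'.sublist.nodup hnd)
    rw [fits_list]
    refine ⟨?_, ?_⟩
    · rw [h1]
      refine le_trans ?_ hS
      rw [← hlen]
      exact Nat.pow_le_pow_right (by norm_num) hl'.length_le
    · intro Q hQ
      rw [fits_finset]
      intro e he
      exact hN e ((hmem e).mp (hl'.subset ((h3 Q).mp hQ e he)))
  obtain ⟨h1, h2, h3⟩ := UB1_fold _ hnd
  rw [key]
  refine ⟨h2, fun Q => ?_⟩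
  rw [h3]
  constructor
  · intro h e he
    exact (hmem e).mp (h e he)
  · intro h e he
    exact (hmem e).mpr (h he)

end Pool.Agent.helper50.BT
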